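import Pool.Agent.Q187.Korn.Sharp

/-!
# Korn's constant (second case) of the ball in every dimension `n ≥ 4`

`K(Bₙ) = 4 + 2 (n - 2) m / (m² + 3 m + n)` for every integer `m ≥ 1` with
`m (m - 1) ≤ n ≤ m (m + 1)`.
-/

open MeasureTheory Set Metric MvPolynomial
open scoped ContDiff

namespace Pool.Agent.Results.MP_67a05c_an.KornBall

/-- `ℝⁿ` with its Euclidean norm -/
abbrev E (n : ℕ) := EuclideanSpace ℝ (Fin n)

/-- the matrix `∇u(x)` of first partial derivatives: the entry `(i, j)` is `∂ⱼ uᵢ (x)` -/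
noncomputable def grad {n : ℕ} (u : E n → E n) (x : E n) (i j : Fin n) : ℝ :=
  (fderiv ℝ u x (EuclideanSpace.single j 1)) i

/-- the constants `K` for which Korn's inequality in the second case holds on the open unit ball
for all fields `u` of the class `S` which satisfy the side condition -/
def Admissible (n : ℕ) (S : Set (E n → E n)) : Set ℝ :=
  {K | ∀ u ∈ S, (∀ i j, ∫ x in ball (0 : E n) 1, (grad u x i j - grad u x j i) = 0) →
    ∫ x in ball (0 : E n) 1, ∑ i, ∑ j, grad u x i j ^ 2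
      ≤ K * ∫ x in ball (0 : E n) 1, ∑ i, ∑ j, ((grad u x i j + grad u x j i) / 2) ^ 2}

open Q187.Korn in
/-- polynomial field as a map -/
noncomputable def pf {n : ℕ} (v : Fld n) (x : E n) : E n := WithLp.toLp 2 (fun i => ev (v i) x)

open Q187.Korn in
lemma contDiff_pf {n : ℕ} (v : Fld n) : ContDiff ℝ ∞ (pf v) := by
  rw [contDiff_euclidean]
  intro i
  exact contDiff_ev (v i)

open Q187.Korn in
lemma grad_pf {n : ℕ} (v : Fld n) (x : E n) (i j : Fin n) :
    grad (pf v) x i j = ev (pderiv j (v i)) x := by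
  have h1 : grad (pf v) x i j = Q187.Korn.grad (pf v) x i j := rfl
  rw [h1, grad_comp (contDiff_pf v)]
  exact D_ev j (v i) x

open Q187.Korn in
lemma lower {n : ℕ} [NeZero n] (hn : 3 ≤ n) (m : ℕ) (hmn : m + 1 ≤ n) (S : Set (E n → E n))
    (hS : ∀ u, ContDiff ℝ ∞ u → u ∈ S) (K : ℝ) (hK : K ∈ Admissible n S) : Kc n m ≤ K := by
  obtain ⟨v, hside, hpos, hPh⟩ := extremal hn m hmn
  have h1 := hK (pf v) (hS _ (contDiff_pf v)) (fun i j => by
    simp only [grad_pf, ← ev_sub]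
    have h2 : ∫ x in ball (0 : E n) 1, ev (pderiv j (v i) - pderiv i (v j)) x
        = LB (pderiv j (v i) - pderiv i (v j)) := rfl
    rw [h2, map_sub, hside i j, sub_self])
  have hA : ∫ x in ball (0 : E n) 1, ∑ i, ∑ j, grad (pf v) x i j ^ 2 = aa v v := by
    have e1 : ∀ x, ∑ i, ∑ j, grad (pf v) x i j ^ 2
        = ev (∑ i, ∑ j, pderiv j (v i) * pderiv j (v i)) x := by
      intro x
      simp only [grad_pf, ev_sum, ev_mul, sq]
    simp only [e1]
    have e2 : ∀ p : Pol n, ∫ x in ball (0 : E n) 1, ev p x = LB p := fun p => rfl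
    rw [e2]
    unfold aa
    simp only [map_sum]
  have hB : ∫ x in ball (0 : E n) 1, ∑ i, ∑ j, ((grad (pf v) x i j + grad (pf v) x j i) / 2) ^ 2
      = 1 / 2 * aa v v + 1 / 2 * tt v v := by
    have e1 : ∀ x, ∑ i, ∑ j, ((grad (pf v) x i j + grad (pf v) x j i) / 2) ^ 2
        = ev (C (1 / 2) * (∑ i, ∑ j, pderiv j (v i) * pderiv j (v i))
          + C (1 / 2) * (∑ i, ∑ j, pderiv j (v i) * pderiv i (v j))) x := by
      intro x
      simp only [grad_pf, ev_sum, ev_mul, ev_add, ev_C]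
      have e2 : ∑ i, ∑ j, ev (pderiv i (v j)) x * ev (pderiv i (v j)) x
          = ∑ i, ∑ j, ev (pderiv j (v i)) x * ev (pderiv j (v i)) x := Finset.sum_comm
      have e3 : ∑ i, ∑ j, ((ev (pderiv j (v i)) x + ev (pderiv i (v j)) x) / 2) ^ 2
          = 1 / 4 * (∑ i, ∑ j, ev (pderiv j (v i)) x * ev (pderiv j (v i)) x)
          + 1 / 2 * (∑ i, ∑ j, ev (pderiv j (v i)) x * ev (pderiv i (v j)) x)
          + 1 / 4 * (∑ i, ∑ j, ev (pderiv i (v j)) x * ev (pderiv i (v j)) x) := by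
        simp only [Finset.mul_sum, ← Finset.sum_add_distrib]
        refine Finset.sum_congr rfl fun i _ => Finset.sum_congr rfl fun j _ => ?_
        ring
      rw [e3, e2]; ring
    simp only [e1]
    have e2 : ∀ p : Pol n, ∫ x in ball (0 : E n) 1, ev p x = LB p := fun p => rfl
    rw [e2, map_add, LB_C_mul, LB_C_mul]
    unfold aa tt
    simp only [map_sum]
  rw [hA, hB] at h1
  have hKc := Kc_pos hn m
  have hmu := mu_Kc hn m
  unfold Ph at hPh
  rw [hmu] at hPh
  -- `aa = Kc * S`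
  have h2 : aa v v = Kc n m * (1 / 2 * aa v v + 1 / 2 * tt v v) := by
    have h3 : Kc n m * ((1 / 2 - 1 / Kc n m) * aa v v + 1 / 2 * tt v v) = 0 := by
      rw [hPh, mul_zero]
    have h4 : Kc n m * (1 / Kc n m) = 1 := by field_simp
    linear_combination -h3 - (aa v v) * h4
  set S0 := 1 / 2 * aa v v + 1 / 2 * tt v v
  have h5 : 0 < S0 := by
    by_contra hcon
    push Not at hcon
    nlinarith
  rw [h2] at h1
  exact le_of_mul_le_mul_right h1 h5

open Q187.Korn in
lemma upper {n : ℕ} [NeZero n] (hn : 3 ≤ n) {m : ℕ} (hm1 : 1 ≤ m) (h1 : m * (m - 1) ≤ n)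
    (h2 : n ≤ m * (m + 1)) (S : Set (E n → E n))
    (hS : ∀ u ∈ S, ContDiffOn ℝ ∞ u (closedBall 0 1)) : Kc n m ∈ Admissible n S := by
  intro u hu hside
  exact korn_upper hn (mu_ge hn m) (Kc_pos hn m) (mu_Kc hn m) (c3_nn hn hm1 h1 h2) (hS u hu) hside

lemma exists_m (n : ℕ) (hn : 1 ≤ n) : ∃ m : ℕ, 1 ≤ m ∧ m * (m - 1) ≤ n ∧ n ≤ m * (m + 1) := by
  have hex : ∃ m : ℕ, n ≤ m * (m + 1) := ⟨n, by nlinarith⟩
  classical
  refine ⟨Nat.find hex, ?_, ?_, Nat.find_spec hex⟩
  · by_contra h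
    have h0 : Nat.find hex = 0 := by omega
    have := Nat.find_spec hex
    rw [h0] at this
    omega
  · rcases Nat.eq_zero_or_pos (Nat.find hex) with h0 | h0
    · rw [h0]; simp
    · have h1 := Nat.find_min hex (Nat.sub_lt h0 one_pos)
      have h3 : Nat.find hex - 1 + 1 = Nat.find hex := by omega
      have h4 : ¬ n ≤ (Nat.find hex - 1) * Nat.find hex := by
        intro h5
        apply h1
        have h6 : (Nat.find hex - 1) * (Nat.find hex - 1 + 1) = (Nat.find hex - 1) * Nat.find hex := by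
          rw [h3]
        exact h6 ▸ h5
      rw [mul_comm]
      omega

/-- **Korn's constant of the ball, second case.** For every `n ≥ 4` there is an integer `m ≥ 1`
with `m (m - 1) ≤ n ≤ m (m + 1)`, and for every such `m` the smallest constant is
`K(Bₙ) = 4 + 2 (n - 2) m / (m² + 3 m + n)`, both for the class of fields which are smooth on the
closed ball and for the class of fields which are smooth on `ℝⁿ`. -/
theorem result (n : ℕ) (hn : 4 ≤ n) :
    (∃ m : ℕ, 1 ≤ m ∧ m * (m - 1) ≤ n ∧ n ≤ m * (m + 1)) ∧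
    ∀ m : ℕ, 1 ≤ m → m * (m - 1) ≤ n → n ≤ m * (m + 1) →
      IsLeast (Admissible n {u | ContDiffOn ℝ ∞ u (closedBall 0 1)})
          (4 + 2 * ((n : ℝ) - 2) * m / ((m : ℝ) ^ 2 + 3 * m + n)) ∧
        IsLeast (Admissible n {u | ContDiff ℝ ∞ u})
          (4 + 2 * ((n : ℝ) - 2) * m / ((m : ℝ) ^ 2 + 3 * m + n)) := by
  refine ⟨exists_m n (by omega), fun m hm1 h1 h2 => ?_⟩
  have : NeZero n := ⟨by omega⟩
  have hn3 : 3 ≤ n := by omega
  have hmn : m + 1 ≤ n := by
    rcases Nat.lt_or_ge m 3 with h | h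
    · omega
    · have h3 : 2 ≤ m - 1 := by omega
      have h4 : m * 2 ≤ m * (m - 1) := Nat.mul_le_mul_left m h3
      omega
  have hKc : (4 + 2 * ((n : ℝ) - 2) * m / ((m : ℝ) ^ 2 + 3 * m + n)) = Q187.Korn.Kc n m := rfl
  rw [hKc]
  refine ⟨⟨upper hn3 hm1 h1 h2 _ (fun u hu => hu), fun K hK => ?_⟩,
    ⟨upper hn3 hm1 h1 h2 _ (fun u hu => ContDiff.contDiffOn hu), fun K hK => ?_⟩⟩
  · exact lower hn3 m hmn _ (fun u hu => ContDiff.contDiffOn hu) K hK
  · exact lower hn3 m hmn _ (fun u hu => hu) K hK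

end Pool.Agent.Results.MP_67a05c_an.KornBall
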